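import Mathlib

/-!
JJ-10: algebraic independence and cardinality, transfer, existence of transcendental numbers in
an interval.
-/

namespace Pool.Agent.Helper36.JJ

open Set

theorem algIndep_of_card {ι κ : Type} [Fintype ι] [Fintype κ] (x : ι → ℝ) (y : κ → ℝ)
    (hy : AlgebraicIndependent ℚ y) (hyx : ∀ k, y k ∈ Algebra.adjoin ℚ (Set.range x))
    (hc : Fintype.card ι ≤ Fintype.card κ) :
    AlgebraicIndependent ℚ x ∧ ∀ i, IsAlgebraic (Algebra.adjoin ℚ (Set.range y)) (x i) := by
  let L := Algebra.adjoin ℚ (Set.range x)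
  let x' : ι → L := fun i => ⟨x i, Algebra.subset_adjoin ⟨i, rfl⟩⟩
  let y' : κ → L := fun k => ⟨y k, hyx k⟩
  have hy' : AlgebraicIndependent ℚ y' := AlgebraicIndependent.of_comp L.val hy
  have htop : Algebra.adjoin ℚ (Set.range x') = ⊤ := by
    have h1 : (Algebra.adjoin ℚ (Set.range x')).map L.val = (⊤ : Subalgebra ℚ L).map L.val := by
      rw [AlgHom.map_adjoin, Algebra.map_top, ← Set.range_comp]
      have h2 : (⇑L.val ∘ x') = x := rfl
      rw [h2, Subalgebra.range_val]
    exact Subalgebra.map_injective (f := L.val) Subtype.val_injective h1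
  have hle : Cardinal.mk ι ≤ Algebra.trdeg ℚ L := by
    refine le_trans ?_ hy'.cardinalMk_le_trdeg
    rw [Cardinal.mk_fintype, Cardinal.mk_fintype]
    exact_mod_cast hc
  have hint : Algebra.IsAlgebraic (Algebra.adjoin ℚ (Set.range x')) L := by
    constructor
    intro a
    have ha : a ∈ Algebra.adjoin ℚ (Set.range x') := by
      rw [htop]
      exact Algebra.mem_top
    exact isAlgebraic_algebraMap (⟨a, ha⟩ : Algebra.adjoin ℚ (Set.range x'))
  have hx' : IsTranscendenceBasis ℚ x' :=
    Algebra.IsAlgebraic.isTranscendenceBasis_of_le_trdeg_of_finite ℚ x' hle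
  have hyb : IsTranscendenceBasis ℚ y' := by
    refine hy'.isTranscendenceBasis_of_trdeg_le_of_finite ?_
    rw [← hx'.cardinalMk_eq_trdeg, Cardinal.mk_fintype, Cardinal.mk_fintype]
    exact_mod_cast hc
  refine ⟨hx'.1.map' (f := L.val) Subtype.val_injective, fun i => ?_⟩
  have halg := hyb.isAlgebraic
  have h1 : IsAlgebraic (Algebra.adjoin ℚ (Set.range y')) (x' i) := halg.isAlgebraic (x' i)
  have hmem : ∀ a : Algebra.adjoin ℚ (Set.range y'),
      (L.val.comp (Algebra.adjoin ℚ (Set.range y')).val) a ∈ Algebra.adjoin ℚ (Set.range y) := by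
    intro a
    have h2 : L.val a.1 ∈ (Algebra.adjoin ℚ (Set.range y')).map L.val :=
      ⟨a.1, a.2, rfl⟩
    rw [AlgHom.map_adjoin, ← Set.range_comp] at h2
    exact h2
  let f : Algebra.adjoin ℚ (Set.range y') →ₐ[ℚ] Algebra.adjoin ℚ (Set.range y) :=
    (L.val.comp (Algebra.adjoin ℚ (Set.range y')).val).codRestrict _ hmem
  refine IsAlgebraic.ringHom_of_comp_eq f L.val h1 ?_ ?_
  · intro a b hab
    have h3 : ((f a : ℝ)) = f b := congrArg Subtype.val hab
    exact Subtype.val_injective (Subtype.val_injective h3)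
  · ext a
    rfl

theorem algIndep_transfer {ι κ : Type} (F : κ → MvPolynomial ι ℚ) (z₀ z : ι → ℝ)
    (h₀ : AlgebraicIndependent ℚ (fun k => MvPolynomial.aeval z₀ (F k)))
    (hz : AlgebraicIndependent ℚ z) :
    AlgebraicIndependent ℚ (fun k => MvPolynomial.aeval z (F k)) := by
  rw [algebraicIndependent_iff] at h₀ hz ⊢
  intro P hP
  have key : ∀ t : ι → ℝ, MvPolynomial.aeval (fun k => MvPolynomial.aeval t (F k)) P =
      MvPolynomial.aeval t (MvPolynomial.aeval F P) := by
    intro t
    have h := MvPolynomial.comp_aeval (R := ℚ) F (MvPolynomial.aeval t)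
    have h2 := DFunLike.congr_fun h P
    rw [AlgHom.comp_apply] at h2
    exact h2.symm
  rw [key] at hP
  have h1 := hz _ hP
  refine h₀ P ?_
  rw [key, h1, map_zero]

theorem countable_adjoin {κ : Type} [Fintype κ] (c : κ → ℝ) :
    Countable (Algebra.adjoin ℚ (Set.range c)) := by
  have h0 : Countable (MvPolynomial κ ℚ) := by
    rw [← Cardinal.mk_le_aleph0_iff]
    refine (MvPolynomial.cardinalMk_le_max (σ := κ) (R := ℚ)).trans ?_
    rw [max_le_iff, max_le_iff]
    exact ⟨⟨Cardinal.mk_le_aleph0, Cardinal.mk_le_aleph0⟩, le_rfl⟩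
  rw [Algebra.adjoin_range_eq_range_aeval]
  exact (MvPolynomial.aeval (R := ℚ) c).rangeRestrict_surjective.countable

theorem countable_algebraic {κ : Type} [Fintype κ] (c : κ → ℝ) :
    {t : ℝ | IsAlgebraic (Algebra.adjoin ℚ (Set.range c)) t}.Countable := by
  have := countable_adjoin c
  exact Algebraic.countable _ _

theorem exists_transc_between {κ : Type} [Fintype κ] (c : κ → ℝ)
    (hc : AlgebraicIndependent ℚ c) (a b : ℝ) (hab : a < b) :
    ∃ t ∈ Set.Ioo a b, AlgebraicIndependent ℚ (fun o : Option κ => o.elim t c) := by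
  have h1 := countable_algebraic c
  have h2 : ¬ (Set.Ioo a b).Countable := by
    rw [← Cardinal.le_aleph0_iff_set_countable, Cardinal.mk_Ioo_real hab, not_le]
    exact Cardinal.aleph0_lt_continuum
  obtain ⟨t, ht, ht2⟩ : ∃ t ∈ Set.Ioo a b, ¬ IsAlgebraic (Algebra.adjoin ℚ (Set.range c)) t := by
    by_contra hcon
    push Not at hcon
    exact h2 (h1.mono fun t ht => hcon t ht)
  exact ⟨t, ht, (hc.option_iff_transcendental t).2 ht2⟩

end Pool.Agent.Helper36.JJ
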